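import Pool.Agent.Q81.EX.Stm

set_option autoImplicit false

namespace Pool.Agent.Q109.EX

open Pool.Agent.Q81.EX Set MeasureTheory

theorem bnd : S_BND := by
  intro p hp
  obtain ⟨hcont, hconc, h0, h1, hmom⟩ := hp
  have m0 : (0 : ℝ) ∈ Icc (0 : ℝ) 1 := ⟨le_rfl, zero_le_one⟩
  have m1 : (1 : ℝ) ∈ Icc (0 : ℝ) 1 := ⟨zero_le_one, le_rfl⟩
  have mh : (1 / 2 : ℝ) ∈ Icc (0 : ℝ) 1 := ⟨by norm_num, by norm_num⟩
  have key : ∀ x ∈ Icc (0 : ℝ) 1, ∀ y ∈ Icc (0 : ℝ) 1, ∀ a b z : ℝ, 0 ≤ a → 0 ≤ b → a + b = 1 →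
      a * x + b * y = z → a * p x + b * p y ≤ p z := by
    intro x hx y hy a b z ha hb hab hz
    have h := hconc.2 hx hy ha hb hab
    simp only [smul_eq_mul] at h
    rwa [hz] at h
  set m := p (1 / 2) with hm
  have hm0 : 0 ≤ m := by
    have h := key 0 m0 1 m1 (1 / 2) (1 / 2) (1 / 2) (by norm_num) (by norm_num) (by norm_num)
      (by norm_num)
    rw [h0, h1] at h
    linarith
  have hlow : ∀ s ∈ Icc (0 : ℝ) 1, 2 * m * (s * (1 - s)) ≤ p s := by
    intro s hs
    obtain ⟨hs0, hs1⟩ := hs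
    have hsm : 0 ≤ m * s := mul_nonneg hm0 hs0
    have hsm' : 0 ≤ m * (1 - s) := mul_nonneg hm0 (by linarith)
    rcases le_total s (1 / 2) with h | h
    · have h3 := key 0 m0 (1 / 2) mh (1 - 2 * s) (2 * s) s (by linarith) (by linarith) (by ring)
        (by ring)
      rw [h0, ← hm] at h3
      nlinarith [mul_nonneg hsm hs0]
    · have h3 := key (1 / 2) mh 1 m1 (2 * (1 - s)) (2 * s - 1) s (by linarith) (by linarith)
        (by ring) (by ring)
      rw [h1, ← hm] at h3
      nlinarith [mul_nonneg hsm' (by linarith : (0 : ℝ) ≤ 1 - s)]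
  have hup : ∀ s ∈ Icc (0 : ℝ) 1, p s ≤ 2 * m := by
    intro s hs
    obtain ⟨hs0, hs1⟩ := hs
    rcases le_total s (1 / 2) with h | h
    · have hpos : (0 : ℝ) < 2 * (1 - s) := by linarith
      have hne : 1 - s ≠ 0 := by
        have : (0 : ℝ) < 1 - s := by linarith
        exact this.ne'
      have h3 := key s ⟨hs0, hs1⟩ 1 m1 (1 / (2 * (1 - s))) ((1 - 2 * s) / (2 * (1 - s))) (1 / 2)
        (by positivity) (div_nonneg (by linarith) hpos.le) (by field_simp; ring)
        (by field_simp; ring)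
      rw [h1, mul_zero, add_zero, ← hm, one_div, inv_mul_le_iff₀ hpos] at h3
      nlinarith [mul_nonneg hm0 hs0]
    · have hpos : (0 : ℝ) < 2 * s := by linarith
      have h3 := key s ⟨hs0, hs1⟩ 0 m0 (1 / (2 * s)) ((2 * s - 1) / (2 * s)) (1 / 2)
        (by positivity) (div_nonneg (by linarith) hpos.le) (by field_simp; ring)
        (by field_simp; ring)
      rw [h0, mul_zero, add_zero, ← hm, one_div, inv_mul_le_iff₀ hpos] at h3
      nlinarith [mul_nonneg hm0 (by linarith : (0 : ℝ) ≤ 1 - s)]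
  have hint : IntervalIntegrable (fun r => r * p r) volume 0 1 :=
    (continuousOn_id.mul hcont).intervalIntegrable_of_Icc zero_le_one
  have hmom' : ∫ r in (0 : ℝ)..1, r * p r = 2 / 3 := hmom
  have hI1 : (2 : ℝ) / 3 ≤ m := by
    have h3 : ∫ r in (0 : ℝ)..1, r * p r ≤ ∫ r in (0 : ℝ)..1, r * (2 * m) := by
      apply intervalIntegral.integral_mono_on zero_le_one hint
        (Continuous.intervalIntegrable (by fun_prop) _ _)
      intro r hr
      exact mul_le_mul_of_nonneg_left (hup r hr) hr.1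
    rw [hmom', intervalIntegral.integral_mul_const, integral_id] at h3
    linarith
  have hI2 : m ≤ 4 := by
    have h3 : ∫ r in (0 : ℝ)..1, (2 * m) * (r ^ 2 - r ^ 3) ≤ ∫ r in (0 : ℝ)..1, r * p r := by
      apply intervalIntegral.integral_mono_on zero_le_one
        (Continuous.intervalIntegrable (by fun_prop) _ _) hint
      intro r hr
      have h4 := mul_le_mul_of_nonneg_left (hlow r hr) hr.1
      calc (2 * m) * (r ^ 2 - r ^ 3) = r * (2 * m * (r * (1 - r))) := by ring
        _ ≤ r * p r := h4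
    rw [hmom', intervalIntegral.integral_const_mul, intervalIntegral.integral_sub
      (Continuous.intervalIntegrable (by fun_prop) _ _)
      (Continuous.intervalIntegrable (by fun_prop) _ _), integral_pow, integral_pow] at h3
    norm_num at h3
    linarith
  intro s hs
  have h3 := hlow s hs
  have h4 := hup s hs
  have h5 : 0 ≤ s * (1 - s) := mul_nonneg hs.1 (by linarith [hs.2])
  refine ⟨le_trans (by positivity) h3, by linarith, ?_⟩
  nlinarith [mul_nonneg (by linarith : (0 : ℝ) ≤ m - 2 / 3) h5]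

end Pool.Agent.Q109.EX
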