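import Pool.Agent.Q81.EX.Stm

set_option autoImplicit false

namespace Pool.Agent.Q109.EX

open Pool.Agent.Q81.EX Set MeasureTheory

theorem gbd_ext (p : ℝ → ℝ) (hp : ContinuousOn p (Icc 0 1)) :
    ∃ P : ℝ → ℝ, Continuous P ∧ ∀ x ∈ Icc (0 : ℝ) 1, P x = p x := by
  refine ⟨IccExtend (zero_le_one' ℝ) ((Icc (0 : ℝ) 1).restrict p),
    (continuousOn_iff_continuous_restrict.1 hp).Icc_extend', fun x hx => ?_⟩
  rw [IccExtend_of_mem _ _ hx]
  rfl

theorem gbd_GG {p P : ℝ → ℝ} (h : ∀ x ∈ Icc (0 : ℝ) 1, P x = p x) {s : ℝ}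
    (hs : s ∈ Icc (0 : ℝ) 1) : GG p s = GG P s := by
  unfold GG
  apply intervalIntegral.integral_congr
  intro r hr
  rw [uIcc_of_le hs.2] at hr
  exact (h r ⟨hs.1.trans hr.1, hr.2⟩).symm

theorem gbd_der {P : ℝ → ℝ} (hP : Continuous P) (s : ℝ) : HasDerivAt (GG P) (-P s) s := by
  unfold GG
  exact intervalIntegral.integral_hasDerivAt_left (hP.intervalIntegrable _ _)
    (hP.stronglyMeasurableAtFilter _ _) hP.continuousAt

theorem gbd (hBND : S_BND) : S_GBD := by
  intro p hp
  have hb := hBND p hp
  obtain ⟨P, hPc, hPp⟩ := gbd_ext p hp.cont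
  have hGc : Continuous (GG P) := continuous_iff_continuousAt.2 fun s => (gbd_der hPc s).continuousAt
  have h1P : GG P 1 = 0 := intervalIntegral.integral_same
  have hGp1 : GG p 1 = 0 := intervalIntegral.integral_same
  refine ⟨fun s hs => ⟨?_, ?_⟩, fun s hs => ?_, hGp1, ?_, ?_⟩
  · -- lower bound
    rw [gbd_GG hPp hs]
    have h3 : ∫ r in s..1, (4 / 3) * (r - r ^ 2) ≤ ∫ r in s..1, P r := by
      apply intervalIntegral.integral_mono_on hs.2
        (Continuous.intervalIntegrable (by fun_prop) _ _) (hPc.intervalIntegrable _ _)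
      intro r hr
      have hr' : r ∈ Icc (0 : ℝ) 1 := ⟨hs.1.trans hr.1, hr.2⟩
      rw [hPp r hr']
      calc (4 / 3) * (r - r ^ 2) = 4 / 3 * (r * (1 - r)) := by ring
        _ ≤ p r := (hb r hr').2.2
    rw [intervalIntegral.integral_const_mul, intervalIntegral.integral_sub
      (Continuous.intervalIntegrable (by fun_prop) _ _)
      (Continuous.intervalIntegrable (by fun_prop) _ _), integral_id, integral_pow] at h3
    refine le_trans ?_ h3
    push_cast
    have hs0 := hs.1
    have hs1 := hs.2
    nlinarith [mul_nonneg hs0 (sq_nonneg (1 - s)), sq_nonneg (1 - s)]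
  · -- upper bound
    rw [gbd_GG hPp hs]
    have h3 : ∫ r in s..1, P r ≤ ∫ r in s..1, (8 : ℝ) := by
      apply intervalIntegral.integral_mono_on hs.2 (hPc.intervalIntegrable _ _)
        (Continuous.intervalIntegrable (by fun_prop) _ _)
      intro r hr
      have hr' : r ∈ Icc (0 : ℝ) 1 := ⟨hs.1.trans hr.1, hr.2⟩
      rw [hPp r hr']
      exact (hb r hr').2.1
    rw [intervalIntegral.integral_const, smul_eq_mul] at h3
    refine h3.trans ?_
    linarith [hs.1]
  · -- derivative
    have h3 := (gbd_der hPc s).hasDerivWithinAt (s := Icc (0 : ℝ) 1)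
    rw [hPp s hs] at h3
    exact h3.congr (fun x hx => gbd_GG hPp hx) (gbd_GG hPp hs)
  · have h3 : ∫ r in (0 : ℝ)..1, GG p r = ∫ r in (0 : ℝ)..1, GG P r := by
      apply intervalIntegral.integral_congr
      intro r hr
      rw [uIcc_of_le zero_le_one] at hr
      exact gbd_GG hPp hr
    have h4 := intervalIntegral.integral_mul_deriv_eq_deriv_mul (a := 0) (b := 1)
      (u := GG P) (v := fun r => r) (u' := fun r => -P r) (v' := fun _ => (1 : ℝ))
      (fun x _ => gbd_der hPc x) (fun x _ => hasDerivAt_id x)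
      (hPc.neg.intervalIntegrable _ _) (Continuous.intervalIntegrable (by fun_prop) _ _)
    simp only [mul_one, h1P, zero_mul, mul_zero, sub_zero, zero_sub] at h4
    rw [h3, h4]
    have h5 : ∫ r in (0 : ℝ)..1, -P r * r = -∫ r in (0 : ℝ)..1, r * p r := by
      rw [← intervalIntegral.integral_neg]
      apply intervalIntegral.integral_congr
      intro r hr
      rw [uIcc_of_le zero_le_one] at hr
      change -P r * r = -(r * p r)
      rw [hPp r hr]
      ring
    have h6 : ∫ r in (0 : ℝ)..1, r * p r = 2 / 3 := hp.mom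
    rw [h5, h6]
    norm_num
  · have h3 : ∫ r in (0 : ℝ)..1, r * GG p r = ∫ r in (0 : ℝ)..1, GG P r * r := by
      apply intervalIntegral.integral_congr
      intro r hr
      rw [uIcc_of_le zero_le_one] at hr
      change r * GG p r = GG P r * r
      rw [gbd_GG hPp hr, mul_comm]
    have h4 := intervalIntegral.integral_mul_deriv_eq_deriv_mul (a := 0) (b := 1)
      (u := GG P) (v := fun r => r ^ 2 / 2) (u' := fun r => -P r) (v' := fun r => r)
      (fun x _ => gbd_der hPc x)
      (fun x _ => by
        have := (hasDerivAt_pow 2 x).div_const 2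
        convert this using 1
        push_cast
        ring)
      (hPc.neg.intervalIntegrable _ _) (Continuous.intervalIntegrable (by fun_prop) _ _)
    rw [h3, h4, h1P]
    have h5 : ∫ r in (0 : ℝ)..1, -P r * (r ^ 2 / 2) = -(I2 p / 2) := by
      unfold I2
      rw [← intervalIntegral.integral_div, ← intervalIntegral.integral_neg]
      apply intervalIntegral.integral_congr
      intro r hr
      rw [uIcc_of_le zero_le_one] at hr
      change -P r * (r ^ 2 / 2) = -(r ^ 2 * p r / 2)
      rw [hPp r hr]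
      ring
    rw [h5]
    ring

end Pool.Agent.Q109.EX
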